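import Pool.Agent.Helper36.JJ.Defs
import Pool.Agent.Helper16.Pin.RankD

/-!
# JJ-4: 3-connectivity
-/

namespace Pool.Agent.Helper36.JJ

open Finset Module
open Pool.Agent.Helper36.Pin

variable {V : Type} [Fintype V] [DecidableEq V]

theorem three_le_deg {G : SimpleGraph V} {X : Finset V} (h3 : ThreeConn G X) {v : V}
    (hv : v ∈ X) : 3 ≤ (nb G X v).card := by
  by_contra hlt
  have hle : (nb G X v).card ≤ 2 := by omega
  have hsub : nb G X v ⊆ X := fun w hw => (mem_nb.1 hw).1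
  have hvn : v ∉ nb G X v := fun h => G.irrefl (mem_nb.1 h).2
  have hc := h3.2 _ hsub hle
  have hvm : v ∈ X \ nb G X v := mem_sdiff.2 ⟨hv, hvn⟩
  have hcard : 2 ≤ (X \ nb G X v).card := by
    have h1 := card_sdiff_add_card_eq_card hsub
    have h2 := h3.1
    omega
  obtain ⟨w, hw, hwv⟩ := exists_mem_ne (by omega : 1 < (X \ nb G X v).card) v
  have hr := hc.preconnected ⟨v, hvm⟩ ⟨w, hw⟩
  obtain ⟨p⟩ := hr
  cases p with
  | nil => exact hwv rfl
  | cons h q =>
    rename_i x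
    have hadj : G.Adj v x.1 := h
    have hx := mem_sdiff.1 x.2
    exact hx.2 (mem_nb.2 ⟨hx.1, hadj⟩)

theorem adj_of_card_four {G : SimpleGraph V} {X : Finset V} (h3 : ThreeConn G X)
    (h4 : X.card = 4) : ∀ u ∈ X, ∀ v ∈ X, u ≠ v → G.Adj u v := by
  intro u hu v hv huv
  have hsub : nb G X u ⊆ X.erase u := fun w hw =>
    mem_erase.2 ⟨fun h => G.irrefl (h ▸ (mem_nb.1 hw).2), (mem_nb.1 hw).1⟩
  have hc : (X.erase u).card ≤ (nb G X u).card := by
    rw [card_erase_of_mem hu, h4]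
    exact three_le_deg h3 hu
  have heq := eq_of_subset_of_card_le hsub hc
  have : v ∈ nb G X u := by
    rw [heq]; exact mem_erase.2 ⟨huv.symm, hv⟩
  exact (mem_nb.1 this).2

theorem threeConn_mono {G G' : SimpleGraph V} (h : G ≤ G') {X : Finset V}
    (h3 : ThreeConn G X) : ThreeConn G' X := by
  refine ⟨h3.1, fun T hT hc => (h3.2 T hT hc).mono ?_⟩
  intro a b hab
  exact h hab

theorem redRigid_mono {G G' : SimpleGraph V} (h : G ≤ G') {X : Finset V} (h4 : 4 ≤ X.card)
    (h3 : RedRigid G X) : RedRigid G' X := by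
  have hsub : edges G ⊆ edges G' := by
    intro e he
    rw [mem_edges] at he ⊢
    exact SimpleGraph.edgeSet_mono h he
  have hsubX : edges G ∩ X.sym2 ⊆ edges G' ∩ X.sym2 := inter_subset_inter_right hsub
  have hup : ∀ F : Finset (Sym2 V), F ⊆ X.sym2 → rk F + 3 ≤ 2 * X.card :=
    fun F hF => rk_inside_le F X (by omega) hF
  constructor
  · have h1 := rk_mono hsubX
    have h2 := hup _ (inter_subset_right : edges G' ∩ X.sym2 ⊆ X.sym2)
    have h5 := h3.1
    omega
  · intro e he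
    have h2 := hup ((edges G' ∩ X.sym2).erase e)
      ((erase_subset _ _).trans inter_subset_right)
    by_cases heG : e ∈ edges G ∩ X.sym2
    · have h1 := rk_mono (erase_subset_erase e hsubX)
      have h5 := h3.2 e heG
      omega
    · have h0 : edges G ∩ X.sym2 ⊆ (edges G' ∩ X.sym2).erase e :=
        fun f hf => mem_erase.2 ⟨fun h => heG (h ▸ hf), hsubX hf⟩
      have h1 := rk_mono h0
      have h5 := h3.1
      omega

theorem threeConn_erase {G : SimpleGraph V} {X : Finset V} (h5 : 5 ≤ X.card)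
    (h3 : ThreeConn G X) {v : V} (hv : v ∈ X)
    (hcl : ∀ a ∈ nb G X v, ∀ b ∈ nb G X v, a ≠ b → G.Adj a b) :
    ThreeConn G (X.erase v) := by
  refine ⟨by rw [card_erase_of_mem hv]; omega, ?_⟩
  intro T hT hTc
  have hTX : T ⊆ X := hT.trans (erase_subset _ _)
  have hvT : v ∉ T := fun h => (mem_erase.1 (hT h)).1 rfl
  have hconn := h3.2 T hTX hTc
  -- membership transfer
  have hmem : ∀ x : V, x ∈ X \ T → x ≠ v → x ∈ (X.erase v) \ T := by
    intro x hx hxv
    exact mem_sdiff.2 ⟨mem_erase.2 ⟨hxv, (mem_sdiff.1 hx).1⟩, (mem_sdiff.1 hx).2⟩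
  -- the key induction
  have key : ∀ (a b : ((X \ T : Finset V) : Set V))
      (p : (G.induce ((X \ T : Finset V) : Set V)).Walk a b) (hb : b.1 ≠ v),
      (∀ ha : a.1 ≠ v, (G.induce (((X.erase v) \ T : Finset V) : Set V)).Reachable
        ⟨a.1, hmem a.1 a.2 ha⟩ ⟨b.1, hmem b.1 b.2 hb⟩) ∧
      (a.1 = v → ∃ x : ((X \ T : Finset V) : Set V), ∃ hx : x.1 ≠ v, G.Adj v x.1 ∧
        (G.induce (((X.erase v) \ T : Finset V) : Set V)).Reachable
          ⟨x.1, hmem x.1 x.2 hx⟩ ⟨b.1, hmem b.1 b.2 hb⟩) := by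
    intro a b p
    induction p with
    | nil =>
      intro hb
      exact ⟨fun ha => SimpleGraph.Reachable.refl _, fun ha => absurd ha hb⟩
    | cons h q ih =>
      rename_i a c b
      intro hb
      have hac : G.Adj a.1 c.1 := h
      obtain ⟨ih1, ih2⟩ := ih hb
      by_cases hc : c.1 = v
      · -- then a is a neighbour of v
        have hav : a.1 ≠ v := by
          intro hav
          rw [hav, hc] at hac
          exact G.irrefl hac
        refine ⟨fun ha => ?_, fun h => absurd h hav⟩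
        obtain ⟨x, hx, hvx, hr⟩ := ih2 hc
        by_cases hax : a.1 = x.1
        · have : (⟨a.1, hmem a.1 a.2 ha⟩ : (((X.erase v) \ T : Finset V) : Set V)) =
              ⟨x.1, hmem x.1 x.2 hx⟩ := Subtype.ext hax
          rw [this]
          exact hr
        · have hadj : G.Adj a.1 x.1 := by
            refine hcl a.1 (mem_nb.2 ⟨(mem_sdiff.1 a.2).1, ?_⟩) x.1
              (mem_nb.2 ⟨(mem_sdiff.1 x.2).1, hvx⟩) hax
            rw [← hc]
            exact hac.symm
          refine SimpleGraph.Reachable.trans (SimpleGraph.Adj.reachable ?_) hr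
          exact hadj
      · refine ⟨fun ha => ?_, fun hav => ?_⟩
        · refine SimpleGraph.Reachable.trans (SimpleGraph.Adj.reachable ?_) (ih1 hc)
          exact hac
        · exact ⟨c, hc, hav ▸ hac, ih1 hc⟩
  have hne : ((X.erase v) \ T).Nonempty := by
    rw [← card_pos]
    have h1 := card_sdiff_add_card_eq_card hT
    rw [card_erase_of_mem hv] at h1
    omega
  rw [SimpleGraph.connected_iff]
  constructor
  · rintro ⟨a, ha⟩ ⟨b, hb⟩
    have ha' := mem_sdiff.1 (mem_coe.1 ha)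
    have hb' := mem_sdiff.1 (mem_coe.1 hb)
    have hav := (mem_erase.1 ha'.1).1
    have hbv := (mem_erase.1 hb'.1).1
    have haX : a ∈ X \ T := mem_sdiff.2 ⟨(mem_erase.1 ha'.1).2, ha'.2⟩
    have hbX : b ∈ X \ T := mem_sdiff.2 ⟨(mem_erase.1 hb'.1).2, hb'.2⟩
    obtain ⟨p⟩ := hconn.preconnected ⟨a, haX⟩ ⟨b, hbX⟩
    exact (key ⟨a, haX⟩ ⟨b, hbX⟩ p hbv).1 hav
  · obtain ⟨x, hx⟩ := hne
    exact ⟨⟨x, hx⟩⟩

end Pool.Agent.Helper36.JJ
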